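import Mathlib

set_option autoImplicit false

/-!
# A radio graceful Cartesian product with a factor that is not radio graceful

The complement of the graph `G` below consists of three triangles and one further vertex `0`, joined
to two vertices of each triangle.  `G` has diameter two, so a radio graceful labeling of `G` is a
Hamiltonian path of the complement; there is none since the removal of the vertex `0` leaves three
components.  But `G □ K₃` has a radio graceful labeling.
-/

open SimpleGraph

namespace Pool.Agent.Results.MP_ce2a64_co.NotInherited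

/-- A radio labeling of `G`: `|f u - f v| ≥ diam G + 1 - d(u, v)` for all distinct `u`, `v`. -/
def IsRadioLabeling {V : Type} (G : SimpleGraph V) (f : V → ℕ) : Prop :=
  ∀ u v : V, u ≠ v → ((G.diam : ℤ) + 1 - (G.dist u v : ℤ)) ≤ |(f u : ℤ) - (f v : ℤ)|

/-- `G` is radio graceful: it has a radio labeling with the set of values
`{0, 1, ..., |V| - 1}`. -/
def RadioGraceful {V : Type} [Fintype V] (G : SimpleGraph V) : Prop :=
  ∃ f : V → ℕ, IsRadioLabeling G f ∧ Set.range f = Set.Iio (Fintype.card V)

/-- The edges of the complement of the example: three triangles and a vertex `0` joined to two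
vertices of each triangle. -/
def coEdge (i j : Fin 10) : Bool :=
  (i.val, j.val) ∈ [(1, 2), (2, 3), (1, 3), (4, 5), (5, 6), (4, 6), (7, 8), (8, 9), (7, 9),
    (0, 1), (0, 2), (0, 4), (0, 5), (0, 7), (0, 8)]

/-- The example: a graph on ten vertices. -/
def Gex : SimpleGraph (Fin 10) where
  Adj i j := i ≠ j ∧ coEdge i j = false ∧ coEdge j i = false
  symm := ⟨fun _ _ h => ⟨h.1.symm, h.2.2, h.2.1⟩⟩
  loopless := ⟨fun _ h => h.1 rfl⟩

instance : DecidableRel Gex.Adj := fun i j =>
  inferInstanceAs (Decidable (i ≠ j ∧ coEdge i j = false ∧ coEdge j i = false))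

/-- The distances in `Gex`. -/
def dG (i j : Fin 10) : ℕ := if i = j then 0 else if Gex.Adj i j then 1 else 2

theorem common : ∀ i j : Fin 10, i ≠ j → ∃ k, Gex.Adj i k ∧ Gex.Adj k j := by decide +kernel

theorem edist_Gex (i j : Fin 10) : Gex.edist i j = dG i j := by
  unfold dG
  by_cases h : i = j
  · simp [h]
  by_cases h2 : Gex.Adj i j
  · rw [if_neg h, if_pos h2]
    exact_mod_cast edist_eq_one_iff_adj.2 h2
  rw [if_neg h, if_neg h2]
  obtain ⟨k, h3, h4⟩ := common i j h
  apply le_antisymm
  · exact edist_le (Walk.cons h3 (Walk.cons h4 Walk.nil))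
  · have h5 : Gex.edist i j ≠ 0 := fun h6 => h (edist_eq_zero_iff.1 h6)
    have h6 : Gex.edist i j ≠ 1 := fun h7 => h2 (edist_eq_one_iff_adj.1 h7)
    have h7 : 1 ≤ Gex.edist i j := Order.one_le_iff_ne_zero.2 h5
    have h8 : 1 < Gex.edist i j := lt_of_le_of_ne h7 (Ne.symm h6)
    have h9 : (1 : ℕ∞) + 1 ≤ Gex.edist i j := Order.add_one_le_of_lt h8
    exact h9

theorem conn_Gex : Gex.Connected := by
  rw [connected_iff_ediam_ne_top]
  have : Gex.ediam ≤ 2 := by
    rw [ediam_le_iff]
    intro u v
    rw [edist_Gex]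
    unfold dG
    split_ifs <;> norm_num
  exact ne_top_of_le_ne_top (by decide) this

theorem dist_Gex (i j : Fin 10) : Gex.dist i j = dG i j := by
  have := edist_Gex i j
  unfold SimpleGraph.dist
  rw [this]
  rfl

theorem diam_Gex : Gex.diam = 2 := by
  have hne : Gex.ediam ≠ ⊤ := connected_iff_ediam_ne_top.1 conn_Gex
  apply le_antisymm
  · obtain ⟨u, v, h⟩ := Gex.exists_dist_eq_diam
    rw [← h, dist_Gex]
    unfold dG
    split_ifs <;> norm_num
  · have h : Gex.dist 0 1 = 2 := by
      rw [dist_Gex]
      decide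
    rw [← h]
    exact dist_le_diam hne

/-- Which component of the complement of `Gex` minus the vertex `0` contains the vertex. -/
def comp (i : Fin 10) : ℕ := (i.val + 2) / 3

theorem comp_eq : ∀ i j : Fin 10, i ≠ 0 → j ≠ 0 → i ≠ j → ¬ Gex.Adj i j → comp i = comp j := by
  decide +kernel

theorem not_Gex : ¬ RadioGraceful Gex := by
  rintro ⟨f, hf, hr⟩
  rw [Fintype.card_fin] at hr
  have hinj : Function.Injective f := by
    have h1 : (Finset.univ.image f) = Finset.range 10 := by
      apply Finset.coe_injective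
      rw [Finset.coe_image, Finset.coe_univ, Set.image_univ, hr]
      ext x
      simp
    have h2 : (Finset.univ.image f).card = (Finset.univ : Finset (Fin 10)).card := by
      rw [h1]
      simp
    exact fun a b h => Finset.card_image_iff.1 h2 (Finset.mem_coe.2 (Finset.mem_univ _))
      (Finset.mem_coe.2 (Finset.mem_univ _)) h
  have hex : ∀ n, n < 10 → ∃ v, f v = n := by
    intro n hn
    have : n ∈ Set.range f := by
      rw [hr]
      exact hn
    exact this
  -- consecutive vertices different from `0` are in the same component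
  have step : ∀ u v : Fin 10, u ≠ 0 → v ≠ 0 → f v = f u + 1 → comp u = comp v := by
    intro u v hu hv huv
    have hne : u ≠ v := by
      rintro rfl
      omega
    apply comp_eq u v hu hv hne
    intro hadj
    have h1 := hf u v hne
    rw [diam_Gex, dist_Gex] at h1
    have h2 : dG u v = 1 := by
      unfold dG
      rw [if_neg hne, if_pos hadj]
    rw [h2, huv] at h1
    push_cast at h1
    rw [show (f u : ℤ) - ((f u : ℤ) + 1) = -1 by ring] at h1
    norm_num at h1
  -- all vertices on the same side of `0` are in the same component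
  have up : ∀ d : ℕ, ∀ u v : Fin 10, f v = f u + d → (f 0 < f u ∨ f v < f 0) →
      comp u = comp v := by
    intro d
    induction d with
    | zero =>
      intro u v h _
      rw [hinj h.symm]
    | succ d ih =>
      intro u v h h0
      have hv : f v < 10 := by
        have : f v ∈ Set.range f := ⟨v, rfl⟩
        rw [hr] at this
        exact this
      obtain ⟨w, hw⟩ := hex (f u + d) (by omega)
      have e1 : comp u = comp w := ih u w hw (by omega)
      have e2 : comp w = comp v := by
        apply step w v _ _ (by omega)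
        · rintro rfl
          omega
        · rintro rfl
          omega
      rw [e1, e2]
  have side : ∀ u v : Fin 10, ((f 0 < f u ∧ f 0 < f v) ∨ (f u < f 0 ∧ f v < f 0)) →
      comp u = comp v := by
    intro u v h
    rcases le_total (f u) (f v) with h1 | h1
    · exact up (f v - f u) u v (by omega) (by omega)
    · exact (up (f u - f v) v u (by omega) (by omega)).symm
  have n1 : f 1 ≠ f 0 := fun h => absurd (hinj h) (by decide)
  have n4 : f 4 ≠ f 0 := fun h => absurd (hinj h) (by decide)
  have n7 : f 7 ≠ f 0 := fun h => absurd (hinj h) (by decide)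
  have c14 : comp 1 ≠ comp 4 := by decide
  have c17 : comp 1 ≠ comp 7 := by decide
  have c47 : comp 4 ≠ comp 7 := by decide
  rcases lt_or_gt_of_ne n1 with h1 | h1 <;> rcases lt_or_gt_of_ne n4 with h4 | h4 <;>
    rcases lt_or_gt_of_ne n7 with h7 | h7
  · exact c14 (side 1 4 (Or.inr ⟨h1, h4⟩))
  · exact c14 (side 1 4 (Or.inr ⟨h1, h4⟩))
  · exact c17 (side 1 7 (Or.inr ⟨h1, h7⟩))
  · exact c47 (side 4 7 (Or.inl ⟨h4, h7⟩))
  · exact c47 (side 4 7 (Or.inr ⟨h4, h7⟩))
  · exact c17 (side 1 7 (Or.inl ⟨h1, h7⟩))
  · exact c14 (side 1 4 (Or.inl ⟨h1, h4⟩))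
  · exact c14 (side 1 4 (Or.inl ⟨h1, h4⟩))

/-- The table of the labeling of `Gex □ K₃`. -/
def tab : List ℕ := [11, 21, 1, 0, 24, 27, 22, 28, 25, 29, 26, 23, 7, 4, 10, 5, 2, 8, 3, 9, 6,
  17, 14, 20, 15, 12, 18, 19, 16, 13]

/-- The labeling of `Gex □ K₃`. -/
def lab (x : Fin 10 × Fin 3) : ℕ := tab.getD (3 * x.1.val + x.2.val) 0

/-- The distances in `Gex □ K₃`. -/
def dP (x y : Fin 10 × Fin 3) : ℕ := dG x.1 y.1 + (if x.2 = y.2 then 0 else 1)

theorem edist_prod (x y : Fin 10 × Fin 3) :
    (Gex □ (⊤ : SimpleGraph (Fin 3))).edist x y = dP x y := by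
  rw [edist_boxProd, edist_Gex]
  unfold dP
  push_cast
  congr 1
  by_cases h : x.2 = y.2
  · simp [h]
  · rw [if_neg h]
    exact edist_eq_one_iff_adj.2 h

theorem dist_prod (x y : Fin 10 × Fin 3) :
    (Gex □ (⊤ : SimpleGraph (Fin 3))).dist x y = dP x y := by
  have := edist_prod x y
  unfold SimpleGraph.dist
  rw [this]
  rfl

theorem dP_le (x y : Fin 10 × Fin 3) : dP x y ≤ 3 := by
  unfold dP dG
  split_ifs <;> norm_num

theorem conn_prod : (Gex □ (⊤ : SimpleGraph (Fin 3))).Connected :=
  conn_Gex.boxProd connected_top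

theorem diam_prod : (Gex □ (⊤ : SimpleGraph (Fin 3))).diam = 3 := by
  have hne : (Gex □ (⊤ : SimpleGraph (Fin 3))).ediam ≠ ⊤ :=
    connected_iff_ediam_ne_top.1 conn_prod
  apply le_antisymm
  · obtain ⟨u, v, h⟩ := (Gex □ (⊤ : SimpleGraph (Fin 3))).exists_dist_eq_diam
    rw [← h, dist_prod]
    exact dP_le u v
  · have h : (Gex □ (⊤ : SimpleGraph (Fin 3))).dist (0, 0) (1, 1) = 3 := by
      rw [dist_prod]
      decide
    have h2 := dist_le_diam (u := ((0, 0) : Fin 10 × Fin 3)) (v := (1, 1)) hne
    omega

theorem lab_ok : ∀ x y : Fin 10 × Fin 3, x ≠ y →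
    4 ≤ dP x y + (lab x - lab y) + (lab y - lab x) := by decide +kernel

theorem lab_inj : ∀ x y : Fin 10 × Fin 3, lab x = lab y → x = y := by decide +kernel

theorem lab_lt : ∀ x : Fin 10 × Fin 3, lab x < 30 := by decide +kernel

theorem prod_graceful : RadioGraceful (Gex □ (⊤ : SimpleGraph (Fin 3))) := by
  refine ⟨lab, ?_, ?_⟩
  · intro u v huv
    rw [diam_prod, dist_prod]
    have h1 := lab_ok u v huv
    have h2 := dP_le u v
    rcases le_total (lab u) (lab v) with h | h
    · rw [abs_of_nonpos (by omega)]
      omega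
    · rw [abs_of_nonneg (by omega)]
      omega
  · have h1 : (Finset.univ.image lab) = Finset.range 30 := by
      apply Finset.eq_of_subset_of_card_le
      · intro n hn
        obtain ⟨x, -, rfl⟩ := Finset.mem_image.1 hn
        exact Finset.mem_range.2 (lab_lt x)
      · rw [Finset.card_image_of_injective _ (fun x y h => lab_inj x y h)]
        simp
    have h2 : Fintype.card (Fin 10 × Fin 3) = 30 := by simp
    rw [h2]
    have h3 := congrArg (fun s : Finset ℕ => (s : Set ℕ)) h1
    simp only [Finset.coe_image, Finset.coe_univ, Set.image_univ] at h3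
    rw [h3]
    ext x
    simp

/-- There are finite connected graphs `G` (on ten vertices) and `H = K₃` such that the Cartesian
product `G □ H` is radio graceful but `G` is not radio graceful. -/
theorem result : ¬ ∀ (V W : Type) [Fintype V] [Fintype W] (G : SimpleGraph V)
    (H : SimpleGraph W), G.Connected → H.Connected → RadioGraceful (G □ H) →
      RadioGraceful G ∧ RadioGraceful H := by
  intro h
  exact not_Gex (h (Fin 10) (Fin 3) Gex ⊤ conn_Gex connected_top prod_graceful).1

end Pool.Agent.Results.MP_ce2a64_co.NotInherited
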